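import Pool.Agent.TH521.DigFinal

/-!
# The Erdős–Turán problem for sets closed under digitwise operations

`r A n` is the number of ordered pairs of elements of `A` with sum `n`. We write the elements of a
set in some base `g ≥ 2` and consider sets `B` which are closed under an operation on the digits:

* `SemilatticeClosed`: the operation at the `j`-th place is a semilattice operation `op j`
  (idempotent, commutative, associative) on `{0, ..., g-1}`, which may depend on `j` (for instance
  minimum, maximum, the common digit or `0` if the digits differ, bitwise `and` of digits);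
* `MedianClosed`: the ternary digitwise median;
* `AffineClosed`: `a - b + c` digit by digit modulo `g` (sets of all numbers whose digits satisfy
  given linear congruences modulo `g`, for instance).

1. If `B` is of one of the first two types and has at least `N ^ ε` elements below `N` for
   infinitely many `N`, for some `ε > 0`, then `r B n ≥ n ^ c` for infinitely many `n`.
2. The same holds for the third type and `g ≥ 3` if `ε > (1 - 1/g) log 2 / log g`.
3. The same holds if `A` is a finite union of sets of the three types, in possibly different bases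
   `g i ≤ G`, and `ε > 5/11`.
4. For the sets `A` in 3 the answer to both questions of Erdős and Turán is affirmative: if
   `r A n ≥ 1` for all large `n`, or if the `n`-th element of `A` is at most `C n ^ 2` for
   infinitely many `n`, then `r A n ≥ n ^ c` for infinitely many `n`, for some `c > 0`.

Method. (a) For a semilattice operation map `a` to the set `φ a` of pairs (place, element below the
digit of `a` at this place). This turns the operation into the intersection, and by Möbius
inversion `a` is a linear function of the indicator of `φ a`. A family of subsets of an `M`-set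
closed under intersections with `2 ^ (ε M)` members shatters a set of size `γ M`, and contains a
cube of dimension `γ' M` (starting file `MP_d5a1e1_nt.BitwiseClosed`), and the sums of opposite
vertices of the cube coincide. (b) In the affine case fix `z` in `B`, and for `v` in `B` pair `x`
with `v - x + z`. At each place `x + (v - x + z)` takes at most two values, and only one value
for at least one of every `g` choices of `v`; so for some `v` the pairs have few sums.
-/

set_option autoImplicit false

namespace Pool.Agent.Results.MP_12a1af_nt.DigitwiseClosed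

open Filter

/-- The number of ordered pairs of elements of `A` with sum `n`. -/
noncomputable def r (A : Set ℕ) (n : ℕ) : ℕ :=
  Set.ncard {p : ℕ × ℕ | p.1 ∈ A ∧ p.2 ∈ A ∧ p.1 + p.2 = n}

/-- The `j`-th digit of `a` in base `g`. -/
def digit (g a j : ℕ) : ℕ := a / g ^ j % g

/-- `B` is closed under a digitwise semilattice operation in base `g`; the operation may depend on
the place. -/
def SemilatticeClosed (g : ℕ) (B : Set ℕ) : Prop :=
  ∃ op : ℕ → ℕ → ℕ → ℕ,
    (∀ j x y z : ℕ, x < g → y < g → z < g → op j x y < g ∧ op j x x = x ∧ op j x y = op j y x ∧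
      op j (op j x y) z = op j x (op j y z)) ∧
    ∀ a ∈ B, ∀ b ∈ B, ∃ d ∈ B, ∀ j, digit g d j = op j (digit g a j) (digit g b j)

/-- `B` is closed under the digitwise median in base `g`. -/
def MedianClosed (g : ℕ) (B : Set ℕ) : Prop :=
  ∀ a ∈ B, ∀ b ∈ B, ∀ c ∈ B, ∃ d ∈ B, ∀ j, digit g d j =
    max (min (digit g a j) (digit g b j)) (min (max (digit g a j) (digit g b j)) (digit g c j))

/-- `B` is closed under `a - b + c`, digit by digit modulo `g`. -/
def AffineClosed (g : ℕ) (B : Set ℕ) : Prop :=
  ∀ a ∈ B, ∀ b ∈ B, ∀ c ∈ B, ∃ d ∈ B, ∀ j,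
    (digit g d j + digit g b j) % g = (digit g a j + digit g c j) % g

/-- **The Erdős–Turán problem for sets closed under digitwise operations.** -/
theorem result :
    (∀ g : ℕ, 2 ≤ g → ∀ ε : ℝ, 0 < ε → ∃ c : ℝ, 0 < c ∧ ∀ B : Set ℕ,
      (SemilatticeClosed g B ∨ MedianClosed g B) →
      (∃ᶠ N : ℕ in atTop, (N : ℝ) ^ ε ≤ ((B ∩ Set.Iio N).ncard : ℝ)) →
      ∃ᶠ n : ℕ in atTop, (n : ℝ) ^ c ≤ (r B n : ℝ)) ∧
    (∀ g : ℕ, 3 ≤ g → ∀ ε : ℝ, (1 - 1 / (g : ℝ)) * Real.log 2 / Real.log g < ε →
      ∃ c : ℝ, 0 < c ∧ ∀ B : Set ℕ, AffineClosed g B →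
      (∃ᶠ N : ℕ in atTop, (N : ℝ) ^ ε ≤ ((B ∩ Set.Iio N).ncard : ℝ)) →
      ∃ᶠ n : ℕ in atTop, (n : ℝ) ^ c ≤ (r B n : ℝ)) ∧
    (∀ (G : ℕ) (ε : ℝ), 5 / 11 < ε → ∃ c : ℝ, 0 < c ∧
      ∀ (A : Set ℕ) (m : ℕ) (B : Fin m → Set ℕ) (g : Fin m → ℕ),
      (∀ i, 2 ≤ g i ∧ g i ≤ G) →
      (∀ i, SemilatticeClosed (g i) (B i) ∨ MedianClosed (g i) (B i) ∨
        AffineClosed (g i) (B i)) →
      A = ⋃ i, B i →
      (∃ᶠ N : ℕ in atTop, (N : ℝ) ^ ε ≤ ((A ∩ Set.Iio N).ncard : ℝ)) →
      ∃ᶠ n : ℕ in atTop, (n : ℝ) ^ c ≤ (r A n : ℝ)) ∧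
    (∀ G : ℕ, ∃ c : ℝ, 0 < c ∧
      ∀ (A : Set ℕ) (m : ℕ) (B : Fin m → Set ℕ) (g : Fin m → ℕ),
      (∀ i, 2 ≤ g i ∧ g i ≤ G) →
      (∀ i, SemilatticeClosed (g i) (B i) ∨ MedianClosed (g i) (B i) ∨
        AffineClosed (g i) (B i)) →
      A = ⋃ i, B i →
      ((∀ᶠ n : ℕ in atTop, 1 ≤ r A n) ∨
        (A.Infinite ∧ ∃ C : ℝ, ∃ᶠ n : ℕ in atTop,
          (Nat.nth (· ∈ A) n : ℝ) ≤ C * ((n : ℝ) + 1) ^ 2)) →
      ∃ᶠ n : ℕ in atTop, (n : ℝ) ^ c ≤ (r A n : ℝ)) := by
  refine ⟨?_, ?_, ?_, ?_⟩
  · intro g hg ε hε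
    obtain ⟨c, hc, h⟩ := Pool.Agent.TH521.Dig.semi_freq hg hε
    refine ⟨c, hc, fun B hB H => ?_⟩
    rcases hB with hB | hB
    · exact h B hB H
    · exact h B (Pool.Agent.TH521.Dig.semC_of_medC hg hB) H
  · intro g hg ε hε
    have hlg : 0 < Real.log g := Real.log_pos (by exact_mod_cast (by omega : 1 < g))
    rw [div_lt_iff₀ hlg] at hε
    exact Pool.Agent.TH521.Dig.aff_freq (by omega) hε
  · intro G ε hε
    exact Pool.Agent.TH521.Dig.union_freq G hε
  · intro G
    obtain ⟨c, hc, h⟩ := Pool.Agent.TH521.Dig.union_freq G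
      (show (5 : ℝ) / 11 < 23 / 50 by norm_num)
    refine ⟨c, hc, fun A m B g hg hB hAB H => h A m B g hg hB hAB ?_⟩
    rcases H with H | ⟨hinf, C, H⟩
    · exact Pool.Agent.TH521.Dig.count_basis H (by norm_num)
    · exact Pool.Agent.TH521.Dig.count_square hinf H (by norm_num) (by norm_num)

end Pool.Agent.Results.MP_12a1af_nt.DigitwiseClosed
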