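import Pool.Agent.TH314.ET.Hyp

/-!
# The Erdős–Turán problem (MP_12a1af_nt): sets in few residue classes modulo primes

`rep A n` is the number of ordered pairs of elements of `A` with sum `n`, and `res A q` is the
number of residue classes modulo `q` which contain an element of `A`.

1. Large sieve inequality for the representation function: for every set `A` and every `N`, with
   `A(N) = |A ∩ [1, N]|` and `ν p = res (A ∩ [1, N]) p`,
   `A(N)⁴ ∑_{q ≤ √N} μ²(q) / φ(q) ∏_{p ∣ q} ((p - ν p) / ν p)² ≤ 18 N ∑_{n ≤ 2 N} rep A n ^ 2`.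
2. Let `A(N) ≥ c √N` for some `c > 0` and infinitely many `N`; this follows from the hypothesis of
   Q1 and from the hypothesis of Q2. If `∑_p (p - res A p)² / p³ = ∞`, then `rep A` is unbounded,
   even in mean square.
3. If moreover `res A p ≤ (1 - δ) p` for all large primes `p`, then
   `rep A n ≥ c' (log n)^((δ / (1 - δ))²)` for infinitely many `n`, and
   `∑_{n < N} rep A n ^ 2 ≥ c' N (log N)^((δ / (1 - δ))²)` for infinitely many `N`.

Method: the large sieve inequality for the coefficients `rep A n` and Montgomery's inequality;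
parts 2 and 3 are deduced from part 1.
-/

set_option autoImplicit false

namespace Pool.Agent.Results.MP_12a1af_nt.FewResidues

open Filter Finset Pool.Agent.TH314.ET

/-- **Sets in few residue classes.** -/
theorem result :
    -- 0. the hypotheses of Q1 and of Q2
    (∀ A : Set ℕ, IsBasis A ∨ QuadGrowth A → Thick A) ∧
    -- 1. the large sieve inequality
    (∀ (A : Set ℕ) (N : ℕ),
      ((A ∩ Set.Icc 1 N).ncard : ℝ) ^ 4 *
        ∑ q ∈ (Icc 1 (Nat.sqrt N)).filter Squarefree,
          (∏ p ∈ q.primeFactors,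
            (((p : ℝ) - res (A ∩ Set.Icc 1 N) p) / res (A ∩ Set.Icc 1 N) p) ^ 2) /
              (Nat.totient q : ℝ) ≤
        18 * N * ∑ n ∈ range (2 * N + 1), (rep A n : ℝ) ^ 2) ∧
    -- 2. divergence of the sum over primes
    (∀ A : Set ℕ, Thick A →
      (¬ Summable fun p : ℕ => if p.Prime then ((p : ℝ) - res A p) ^ 2 / (p : ℝ) ^ 3 else 0) →
      (∀ B : ℝ, ∃ᶠ N : ℕ in atTop, B * N < ∑ n ∈ range N, (rep A n : ℝ) ^ 2) ∧
      ∀ K : ℕ, ∃ n, K < rep A n) ∧
    -- 3. a positive proportion of the classes is missed for all large primes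
    (∀ (A : Set ℕ) (δ : ℝ), Thick A → 0 < δ → δ < 1 →
      (∀ᶠ p : ℕ in atTop, p.Prime → (res A p : ℝ) ≤ (1 - δ) * p) →
      (∃ c : ℝ, 0 < c ∧ ∃ᶠ n : ℕ in atTop,
        c * Real.log n ^ ((δ / (1 - δ)) ^ 2) ≤ (rep A n : ℝ)) ∧
      ∃ c : ℝ, 0 < c ∧ ∃ᶠ N : ℕ in atTop,
        c * N * Real.log N ^ ((δ / (1 - δ)) ^ 2) ≤ ∑ n ∈ range N, (rep A n : ℝ) ^ 2) := by
  refine ⟨?_, ?_, ?_, ?_⟩
  · rintro A (h | h)
    · exact thick_of_basis A h
    · exact thick_of_growth A h
  · intro A N
    have h := energy_form A N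
    unfold wt at h
    simp only [occ_eq_res] at h
    exact h
  · intro A hA hdiv
    have h := unbounded_of_diverge A hA hdiv
    exact ⟨h, unbounded_of_mean A h⟩
  · intro A δ hA h0 h1 hres
    exact ⟨log_power A hA δ h0 h1 hres, log_power_mean A hA δ h0 h1 hres⟩

end Pool.Agent.Results.MP_12a1af_nt.FewResidues
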