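import Pool.Agent.TH854.ET.P7

/-!
# MP_12a1af_nt, Q2: the growth constant of a set with bounded representation function

`rep A n` is the number `r_A(n)` of ordered pairs `(a, b) ∈ A × A` with `a + b = n`, and
`Nat.nth (fun a => a ∈ A) n` is the element `a_{n+1}` of the infinite set `A` (counting from
`n = 0`).  If `r_A(n) ≤ 2 g + 1` for all large `n` (`g ≥ 1`), then
`limsup a_n / n^2 ≥ π / (4 (2 g - 1369/1260))`.  In other words, a set which satisfies
`a_n ≤ C n^2` for all large `n` has `r_A(n) ≥ 2 g + 2` infinitely often, as soon as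
`4 (2 g - 1369/1260) C < π`.  Counting pairs gives the weaker condition `8 g C < π`.

Method: the variance law of `Pool/Agent/TH854/ET/P3.lean` (built on the differential identities of
the starting file `EightRepresentations`) with `lam = π / (4 C)`, which is a lower bound for the
logarithmic mean of `r_A`.
-/

set_option autoImplicit false

namespace Pool.Agent.Results.MP_12a1af_nt.GrowthConstant

/-- `r_A(n)`: the number of ordered pairs of elements of `A` with sum `n` -/
noncomputable def rep (A : Set ℕ) (n : ℕ) : ℕ :=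
  {p : ℕ × ℕ | p.1 ∈ A ∧ p.2 ∈ A ∧ p.1 + p.2 = n}.ncard

/-- Let `g ≥ 1`, let `A` be infinite with `r_A(n) ≤ 2 g + 1` for all large `n`, and let
`4 (2 g - 1369/1260) C < π`.  Then `a_n > C n^2` for infinitely many `n` (`a_1 < a_2 < ...` the
elements of `A`; `a_{n+1} = Nat.nth (fun a => a ∈ A) n`). -/
theorem result (g : ℕ) (hg : 1 ≤ g) (A : Set ℕ) (hA : A.Infinite)
    (h : ∃ n₀, ∀ n ≥ n₀, rep A n ≤ 2 * g + 1) (C : ℝ)
    (hC : 4 * (2 * g - 1369 / 1260) * C < Real.pi) :
    ∀ n₁ : ℕ, ∃ n ≥ n₁, C * ((n : ℝ) + 1) ^ 2 < Nat.nth (fun a => a ∈ A) n :=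
  Pool.Agent.TH854.ET.second_question g hg A hA h C hC

end Pool.Agent.Results.MP_12a1af_nt.GrowthConstant
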