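import Pool.Agent.TH854.ET.P5

/-!
# MP_12a1af_nt, Q1: explicit density of the numbers with few representations

`rep A n` is the number `r_A(n)` of ordered pairs `(a, b) ∈ A × A` with `a + b = n`.  Write
`c = 1369/1260`.  If `r_A(n) ≤ 2 g + 1` for all large `n`, then the upper density of the set of all
`n` with `r_A(n) ≤ 2 l - 2` is at least `(2 l c - (g - l - c/2)^2) / (4 l g)` (or at least `2/5` if
this quotient exceeds `2/5`).

Examples: `l = 1`, `g = 2`: if `r_A(n) ≤ 5` for all large `n`, then the integers which are not in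
`A + A` have upper density at least `0.2455`.  `l = 1`, `g = 3`: if `r_A(n) ≤ 7` for all large `n`,
they have upper density at least `0.0042`.  Contrapositive for `δ = 0`: if `r_A(n) ≥ 2 l - 1` for all
large `n` and `(g - l - c/2)^2 < 2 l c`, then `r_A(n) ≥ 2 g + 2` for infinitely many `n`; for example
`r_A(n) ≥ 3` for all large `n` implies `r_A(n) ≥ 10` infinitely often, and `r_A(n) ≥ 5` for all large
`n` implies `r_A(n) ≥ 14` infinitely often.

Method: a variance law for the representation function.  For every set with bounded `r_A` whose mean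
is at least `3/5`, and for every real `lam`, the logarithmic average of `(r_A(n) - lam)^2 - c r_A(n)`
is at least `-o(1)` (file `Pool/Agent/TH854/ET/P3.lean`; it is built on the differential identities of
the starting file `EightRepresentations`).  It is applied with `lam = g + l - c/2`.
-/

set_option autoImplicit false

open Finset

namespace Pool.Agent.Results.MP_12a1af_nt.SmallValuesDensity

/-- `r_A(n)`: the number of ordered pairs of elements of `A` with sum `n` -/
noncomputable def rep (A : Set ℕ) (n : ℕ) : ℕ :=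
  {p : ℕ × ℕ | p.1 ∈ A ∧ p.2 ∈ A ∧ p.1 + p.2 = n}.ncard

open Classical in
/-- Let `1 ≤ l ≤ g` and `0 ≤ δ ≤ 2/5` with `4 l g δ < 2 l c - (g - l - c/2)^2`, `c = 1369/1260`.
If `r_A(n) ≤ 2 g + 1` for all large `n`, then for arbitrarily large `N` more than `δ N` of the
integers `1, …, N` satisfy `r_A(n) ≤ 2 l - 2`. -/
theorem result (l g : ℕ) (hl : 1 ≤ l) (hlg : l ≤ g) (δ : ℝ) (hδ0 : 0 ≤ δ) (hδ1 : δ ≤ 2 / 5)
    (hδ : 4 * l * g * δ < 2 * l * (1369 / 1260) - ((g : ℝ) - l - 1369 / 2520) ^ 2)
    (A : Set ℕ) (hA : ∃ n₀, ∀ n ≥ n₀, rep A n ≤ 2 * g + 1) :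
    ∀ N₀ : ℕ, ∃ N ≥ N₀,
      δ * N < (((Icc 1 N).filter (fun n => rep A n ≤ 2 * l - 2)).card : ℝ) :=
  Pool.Agent.TH854.ET.density l g hl hlg δ hδ0 hδ1 hδ A hA

end Pool.Agent.Results.MP_12a1af_nt.SmallValuesDensity
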